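import Pool.Agent.KS6_89.DR.Asm

/-!
# MP_325b7c_co: three-dimensional grid drawings of volume `O(k min(n, k) + n)`

Every graph with `n` vertices and `k` edges has a crossing-free straight-line grid drawing in three
dimensions whose bounding box has at most `C (k min(n, 2k) + n)` grid points. For `k ≥ n / 2` this is the
bound `O(kn)` of the problem (library theorem); for sparse graphs it is smaller, down to `O(n)` for
`k ≤ √n`. The proof draws the graph induced on the non-isolated vertices and stacks the isolated vertices in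
new layers.
-/

set_option autoImplicit false

open Finset

namespace Pool.Agent.Results.MP_325b7c_co.SparseVolume

/-- `f` is a straight-line grid drawing of `G` in the box `[0, b 0) × [0, b 1) × [0, b 2)`: distinct
vertices are at distinct points of the box, no edge passes through a third vertex, and two distinct edges
meet at most in a common endpoint. -/
structure Drawing {n : ℕ} (G : SimpleGraph (Fin n)) (f : Fin n → Fin 3 → ℤ) (b : Fin 3 → ℕ) : Prop where
  box : ∀ v i, 0 ≤ f v i ∧ f v i < (b i : ℤ)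
  inj : Function.Injective f
  edge_vertex : ∀ u v w : Fin n, G.Adj u v → w ≠ u → w ≠ v →
    (fun i => (f w i : ℝ)) ∉ segment ℝ (fun i => (f u i : ℝ)) (fun i => (f v i : ℝ))
  edge_edge : ∀ u v x y : Fin n, G.Adj u v → G.Adj x y → s(u, v) ≠ s(x, y) →
    ∀ z ∈ segment ℝ (fun i => (f u i : ℝ)) (fun i => (f v i : ℝ)),
      z ∈ segment ℝ (fun i => (f x i : ℝ)) (fun i => (f y i : ℝ)) →
        (z = (fun i => (f u i : ℝ)) ∨ z = (fun i => (f v i : ℝ))) ∧
        (z = (fun i => (f x i : ℝ)) ∨ z = (fun i => (f y i : ℝ)))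

theorem base : ∃ C : ℝ, 0 ≤ C ∧ ∀ (n : ℕ) (G : SimpleGraph (Fin n)), ∃ f b, Drawing G f b ∧
    ((∏ i, b i : ℕ) : ℝ) ≤ C * ((G.edgeSet.ncard : ℝ) + 1) * (n : ℝ) := by
  obtain ⟨C, hC⟩ := Pool.Agent.KS6_89.DR.linear
  refine ⟨|C|, abs_nonneg C, fun n G => ?_⟩
  obtain ⟨f, b, h1, h2, h3, h4, h5⟩ := hC n G
  refine ⟨f, b, ⟨h1, h2, h3, h4⟩, h5.trans ?_⟩
  have := le_abs_self C
  gcongr

/-- positions of the isolated vertices -/
def pos (b0 b1 b2 t : ℕ) : Fin 3 → ℤ := ![((t % b0 : ℕ) : ℤ), ((t / b0 % b1 : ℕ) : ℤ), ((b2 + t / b0 / b1 : ℕ) : ℤ)]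

theorem pos_inj {b0 b1 b2 t t' : ℕ} (h : pos b0 b1 b2 t = pos b0 b1 b2 t') : t = t' := by
  have h0 : ((t % b0 : ℕ) : ℤ) = ((t' % b0 : ℕ) : ℤ) := congrFun h 0
  have h1 : ((t / b0 % b1 : ℕ) : ℤ) = ((t' / b0 % b1 : ℕ) : ℤ) := congrFun h 1
  have h2 : ((b2 + t / b0 / b1 : ℕ) : ℤ) = ((b2 + t' / b0 / b1 : ℕ) : ℤ) := congrFun h 2
  norm_cast at h0 h1 h2
  have e1 : t / b0 / b1 = t' / b0 / b1 := by omega
  have e2 : t / b0 = t' / b0 := by
    rw [← Nat.mod_add_div (t / b0) b1, ← Nat.mod_add_div (t' / b0) b1, h1, e1]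
  rw [← Nat.mod_add_div t b0, ← Nat.mod_add_div t' b0, h0, e2]

theorem seg_lt {x y z : Fin 3 → ℝ} {m : ℝ} (hx : x 2 < m) (hy : y 2 < m) (hz : z ∈ segment ℝ x y) : z 2 < m := by
  obtain ⟨a, b, ha, hb, hab, rfl⟩ := hz
  show a * x 2 + b * y 2 < m
  rcases ha.eq_or_lt with h | h
  · have hb1 : b = 1 := by linarith
    rw [← h, hb1]
    linarith
  · have h1 : a * x 2 < a * m := mul_lt_mul_of_pos_left hx h
    have h2 : b * y 2 ≤ b * m := mul_le_mul_of_nonneg_left hy.le hb
    have h3 : a * m + b * m = m := by rw [← add_mul, hab, one_mul]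
    linarith

theorem result : ∃ C : ℝ, ∀ (n : ℕ) (G : SimpleGraph (Fin n)), ∃ f b, Drawing G f b ∧
    ((∏ i, b i : ℕ) : ℝ) ≤
      C * ((G.edgeSet.ncard : ℝ) * (min n (2 * G.edgeSet.ncard) : ℕ) + (n : ℝ)) := by
  classical
  obtain ⟨C, hC0, hC⟩ := base
  refine ⟨4 * C + 1, fun n G => ?_⟩
  set k := G.edgeSet.ncard with hk
  -- the non-isolated vertices
  let V : Finset (Fin n) := univ.filter fun v => ∃ w, G.Adj v w
  have hV : ∀ v, v ∈ V ↔ ∃ w, G.Adj v w := fun v => by simp [V]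
  have hVn : V.card ≤ n := by
    have := V.card_le_univ
    simpa using this
  have hkc : k = G.edgeFinset.card := by
    rw [hk, Set.ncard_eq_toFinset_card', SimpleGraph.edgeFinset]
  have hVk : V.card ≤ 2 * k := by
    rw [hkc, ← G.sum_degrees_eq_twice_card_edges]
    calc V.card = ∑ v ∈ V, 1 := by simp
      _ ≤ ∑ v ∈ V, G.degree v := by
          refine Finset.sum_le_sum fun v hv => ?_
          obtain ⟨w, hw⟩ := (hV v).1 hv
          exact (G.degree_pos_iff_exists_adj v).2 ⟨w, hw⟩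
      _ ≤ ∑ v, G.degree v := Finset.sum_le_sum_of_subset (Finset.subset_univ _)
  rcases Nat.eq_zero_or_pos k with hk0 | hk0
  · -- no edges
    have hno : ∀ u v, ¬ G.Adj u v := by
      intro u v huv
      have h1 : G.edgeFinset.card = 0 := by rw [← hkc, hk0]
      rw [Finset.card_eq_zero] at h1
      have h2 : s(u, v) ∈ G.edgeFinset := by rw [SimpleGraph.mem_edgeFinset]; exact huv
      rw [h1] at h2
      exact absurd h2 (Finset.notMem_empty _)
    refine ⟨fun v => ![(v : ℕ), 0, 0], ![n, 1, 1], ⟨?_, ?_, ?_, ?_⟩, ?_⟩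
    · intro v i
      fin_cases i
      · simp
      · simp
      · simp
    · intro u v huv
      have h1 := congrFun huv 0
      simp at h1
      exact Fin.ext h1
    · intro u v w h
      exact absurd h (hno u v)
    · intro u v x y h
      exact absurd h (hno u v)
    · rw [Fin.prod_univ_three, hk0]
      simp
      have : (0 : ℝ) ≤ n := by positivity
      nlinarith
  · -- at least one edge
    set m := V.card with hm
    let e : V ≃ Fin m := V.equivFin
    let ι : Fin m → Fin n := fun i => (e.symm i).1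
    have hι : Function.Injective ι := fun i j h => e.symm.injective (Subtype.ext h)
    let G' : SimpleGraph (Fin m) := G.comap ι
    obtain ⟨g, b, hg, hvol⟩ := hC m G'
    have hG' : G'.edgeSet.ncard ≤ k := by
      refine Set.ncard_le_ncard_of_injOn (Sym2.map ι) ?_ ((Sym2.map.injective hι).injOn) (Set.toFinite _)
      intro x
      induction x using Sym2.ind with
      | _ u v =>
        intro h
        exact h
    -- positivity
    obtain ⟨u0, hu0⟩ : ∃ u0 : Fin n, u0 ∈ V := by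
      have h1 : G.edgeFinset.Nonempty := by
        rw [← Finset.card_pos, ← hkc]
        exact hk0
      obtain ⟨x, hx⟩ := h1
      induction x using Sym2.ind with
      | _ u v =>
        rw [SimpleGraph.mem_edgeFinset] at hx
        exact ⟨u, (hV u).2 ⟨v, hx⟩⟩
    have hbpos : ∀ i, 0 < b i := by
      intro i
      have := hg.box (e ⟨u0, hu0⟩) i
      have h1 : (0 : ℤ) < b i := lt_of_le_of_lt this.1 this.2
      exact_mod_cast h1
    let f : Fin n → Fin 3 → ℤ := fun v => if h : v ∈ V then g (e ⟨v, h⟩) else pos (b 0) (b 1) (b 2) v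
    have hfV : ∀ v (h : v ∈ V), f v = g (e ⟨v, h⟩) := fun v h => dif_pos h
    have hfN : ∀ v, v ∉ V → f v = pos (b 0) (b 1) (b 2) v := fun v h => dif_neg h
    have hιe : ∀ v (h : v ∈ V), ι (e ⟨v, h⟩) = v := fun v h => by simp [ι]
    have hadj : ∀ u v (hu : u ∈ V) (hv : v ∈ V), G.Adj u v → G'.Adj (e ⟨u, hu⟩) (e ⟨v, hv⟩) := by
      intro u v hu hv h
      show G.Adj (ι _) (ι _)
      rw [hιe, hιe]
      exact h
    have hlow : ∀ v (h : v ∈ V), (f v 2 : ℝ) < b 2 := by
      intro v h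
      rw [hfV v h]
      exact_mod_cast (hg.box (e ⟨v, h⟩) 2).2
    have hhigh : ∀ v, v ∉ V → (b 2 : ℝ) ≤ f v 2 := by
      intro v h
      rw [hfN v h]
      have h1 : pos (b 0) (b 1) (b 2) v 2 = ((b 2 + v / b 0 / b 1 : ℕ) : ℤ) := rfl
      rw [h1]
      push_cast
      have : (0 : ℝ) ≤ (((v : ℕ) / b 0 / b 1 : ℕ) : ℝ) := by positivity
      have h2 : ((((v : ℕ) / b 0 / b 1 : ℤ)) : ℝ) = (((v : ℕ) / b 0 / b 1 : ℕ) : ℝ) := by norm_cast
      rw [h2]
      linarith
    refine ⟨f, ![b 0, b 1, b 2 + (n / b 0 / b 1 + 1)], ⟨?_, ?_, ?_, ?_⟩, ?_⟩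
    · intro v i
      by_cases h : v ∈ V
      · rw [hfV v h]
        have h1 := hg.box (e ⟨v, h⟩) i
        fin_cases i
        · exact h1
        · exact h1
        · refine ⟨h1.1, lt_of_lt_of_le h1.2 ?_⟩
          show (b 2 : ℤ) ≤ ((b 2 + (n / b 0 / b 1 + 1) : ℕ) : ℤ)
          push_cast
          have : (0 : ℤ) ≤ (n : ℤ) / b 0 / b 1 := by positivity
          linarith
      · rw [hfN v h]
        fin_cases i
        · show (0 : ℤ) ≤ ((v % b 0 : ℕ) : ℤ) ∧ ((v % b 0 : ℕ) : ℤ) < (b 0 : ℤ)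
          refine ⟨by positivity, ?_⟩
          exact_mod_cast Nat.mod_lt _ (hbpos 0)
        · show (0 : ℤ) ≤ ((v / b 0 % b 1 : ℕ) : ℤ) ∧ ((v / b 0 % b 1 : ℕ) : ℤ) < (b 1 : ℤ)
          refine ⟨by positivity, ?_⟩
          exact_mod_cast Nat.mod_lt _ (hbpos 1)
        · show (0 : ℤ) ≤ ((b 2 + v / b 0 / b 1 : ℕ) : ℤ) ∧
            ((b 2 + v / b 0 / b 1 : ℕ) : ℤ) < ((b 2 + (n / b 0 / b 1 + 1) : ℕ) : ℤ)
          refine ⟨by positivity, ?_⟩
          have h1 : (v : ℕ) / b 0 / b 1 ≤ n / b 0 / b 1 :=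
            Nat.div_le_div_right (Nat.div_le_div_right v.2.le)
          have h2 : b 2 + (v : ℕ) / b 0 / b 1 < b 2 + (n / b 0 / b 1 + 1) := by omega
          exact_mod_cast h2
    · intro u v huv
      by_cases hu : u ∈ V
      · by_cases hv : v ∈ V
        · rw [hfV u hu, hfV v hv] at huv
          have h1 := e.injective (hg.inj huv)
          exact congrArg Subtype.val h1
        · have h1 := hlow u hu
          have h2 := hhigh v hv
          rw [huv] at h1
          exact absurd h1 (not_lt.2 h2)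
      · by_cases hv : v ∈ V
        · have h1 := hlow v hv
          have h2 := hhigh u hu
          rw [← huv] at h1
          exact absurd h1 (not_lt.2 h2)
        · rw [hfN u hu, hfN v hv] at huv
          exact Fin.ext (pos_inj huv)
    · intro u v w huv hwu hwv hmem
      have hu : u ∈ V := (hV u).2 ⟨v, huv⟩
      have hv : v ∈ V := (hV v).2 ⟨u, huv.symm⟩
      by_cases hw : w ∈ V
      · refine hg.edge_vertex _ _ (e ⟨w, hw⟩) (hadj u v hu hv huv) ?_ ?_ ?_
        · intro h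
          exact hwu (congrArg Subtype.val (e.injective h))
        · intro h
          exact hwv (congrArg Subtype.val (e.injective h))
        · rw [hfV u hu, hfV v hv, hfV w hw] at hmem
          exact hmem
      · have h1 := seg_lt (m := b 2) (hlow u hu) (hlow v hv) hmem
        exact absurd h1 (not_lt.2 (hhigh w hw))
    · intro u v x y huv hxy hne z hz1 hz2
      have hu : u ∈ V := (hV u).2 ⟨v, huv⟩
      have hv : v ∈ V := (hV v).2 ⟨u, huv.symm⟩
      have hx : x ∈ V := (hV x).2 ⟨y, hxy⟩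
      have hy : y ∈ V := (hV y).2 ⟨x, hxy.symm⟩
      rw [hfV u hu, hfV v hv] at hz1 ⊢
      rw [hfV x hx, hfV y hy] at hz2 ⊢
      refine hg.edge_edge _ _ _ _ (hadj u v hu hv huv) (hadj x y hx hy hxy) ?_ z hz1 hz2
      intro h
      apply hne
      have h1 := congrArg (Sym2.map ι) h
      simp only [Sym2.map_mk, hιe] at h1
      exact h1
    · -- the volume
      rw [Fin.prod_univ_three]
      show ((b 0 * b 1 * (b 2 + (n / b 0 / b 1 + 1)) : ℕ) : ℝ) ≤ _
      rw [Fin.prod_univ_three] at hvol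
      have hW : 0 < b 0 * b 1 := Nat.mul_pos (hbpos 0) (hbpos 1)
      have h1 : b 0 * b 1 * (n / b 0 / b 1) ≤ n := by
        rw [Nat.div_div_eq_div_mul]
        exact Nat.mul_div_le n _
      have h2 : b 0 * b 1 ≤ b 0 * b 1 * b 2 := Nat.le_mul_of_pos_right _ (hbpos 2)
      have h3 : b 0 * b 1 * (b 2 + (n / b 0 / b 1 + 1)) ≤ 2 * (b 0 * b 1 * b 2) + n := by
        rw [mul_add, mul_add, mul_one]
        omega
      have h4 : ((b 0 * b 1 * (b 2 + (n / b 0 / b 1 + 1)) : ℕ) : ℝ) ≤ 2 * ((b 0 * b 1 * b 2 : ℕ) : ℝ) + n := by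
        exact_mod_cast h3
      have h5 : (G'.edgeSet.ncard : ℝ) + 1 ≤ 2 * k := by
        have h6 : G'.edgeSet.ncard + 1 ≤ 2 * k := by omega
        exact_mod_cast h6
      have h7 : (m : ℝ) ≤ (min n (2 * k) : ℕ) := by
        have : m ≤ min n (2 * k) := le_min hVn hVk
        exact_mod_cast this
      have h8 : ((b 0 * b 1 * b 2 : ℕ) : ℝ) ≤ C * (2 * k) * (min n (2 * k) : ℕ) :=
        hvol.trans (by gcongr)
      have h9 : (0 : ℝ) ≤ n := by positivity
      have h10 : (0 : ℝ) ≤ (k : ℝ) * (min n (2 * k) : ℕ) := by positivity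
      calc ((b 0 * b 1 * (b 2 + (n / b 0 / b 1 + 1)) : ℕ) : ℝ) ≤ 2 * ((b 0 * b 1 * b 2 : ℕ) : ℝ) + n := h4
        _ ≤ 2 * (C * (2 * k) * (min n (2 * k) : ℕ)) + n := by gcongr
        _ = 4 * C * ((k : ℝ) * (min n (2 * k) : ℕ)) + n := by ring
        _ ≤ (4 * C + 1) * ((k : ℝ) * (min n (2 * k) : ℕ) + n) := by nlinarith

end Pool.Agent.Results.MP_325b7c_co.SparseVolume
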